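import Pool.Agent.Helper88.QT.St1
import Pool.Agent.Helper85.QT.St1

/-!
# Project QT, module GPM: geodesics of the upper half space
-/

set_option autoImplicit false

open MeasureTheory Matrix Set Topology
open scoped ENNReal ComplexConjugate

namespace Pool.Agent.Helper16.QT

open Pool.Agent.Helper88.QT Pool.Agent.Helper85.QT Pool.Agent.Helper86.QA

private lemma nsq (z : ℂ) : ‖z‖ ^ 2 = z.re ^ 2 + z.im ^ 2 := by
  rw [← Complex.normSq_eq_norm_sq, Complex.normSq_apply]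
  ring

private lemma nrm_id (p q : ℝ) (hpq : p * q = 1) (j k : ℂ) :
    ‖(p : ℂ) * j + (q : ℂ) * k‖ ^ 2 + ‖j - k‖ ^ 2 = (p + q) * (p * ‖j‖ ^ 2 + q * ‖k‖ ^ 2) := by
  rw [nsq, nsq, nsq, nsq]
  simp only [Complex.add_re, Complex.add_im, Complex.mul_re, Complex.mul_im, Complex.sub_re,
    Complex.sub_im, Complex.ofReal_re, Complex.ofReal_im]
  linear_combination (2 * (j.re * k.re + j.im * k.im) - (j.re ^ 2 + j.im ^ 2) -
    (k.re ^ 2 + k.im ^ 2)) * hpq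

private lemma cpx_id (p q : ℝ) (hpq : p * q = 1) (m n j k : ℂ) :
    ((p : ℂ) * m + (q : ℂ) * n) * conj ((p : ℂ) * j + (q : ℂ) * k) + (m - n) * conj (j - k) =
      ((p : ℂ) + q) * (p * (m * conj j) + q * (n * conj k)) := by
  have h : (p : ℂ) * q = 1 := by exact_mod_cast hpq
  simp only [map_add, map_mul, map_sub, Complex.conj_ofReal]
  linear_combination (m * conj k + n * conj j - m * conj j - n * conj k) * h

private lemma ch_gp (a b : ℂ) (u u' : ℝ) (hab : a ≠ b) :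
    ch (gp a b u) (gp a b u') = Real.cosh (u - u') := by
  have hn : 0 < ‖a - b‖ := norm_pos_iff.2 (sub_ne_zero.2 hab)
  obtain ⟨p, hp⟩ : ∃ p, p = Real.exp u := ⟨_, rfl⟩
  obtain ⟨q, hq⟩ : ∃ q, q = Real.exp (-u) := ⟨_, rfl⟩
  obtain ⟨p', hp'⟩ : ∃ p, p = Real.exp u' := ⟨_, rfl⟩
  obtain ⟨q', hq'⟩ : ∃ q, q = Real.exp (-u') := ⟨_, rfl⟩
  have hp0 : 0 < p := by rw [hp]; exact Real.exp_pos _
  have hq0 : 0 < q := by rw [hq]; exact Real.exp_pos _
  have hp0' : 0 < p' := by rw [hp']; exact Real.exp_pos _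
  have hq0' : 0 < q' := by rw [hq']; exact Real.exp_pos _
  have hpq : p * q = 1 := by rw [hp, hq, ← Real.exp_add]; simp
  have hpq' : p' * q' = 1 := by rw [hp', hq', ← Real.exp_add]; simp
  have e1 : Real.cosh (u - u') = (p * q' + q * p') / 2 := by
    rw [Real.cosh_eq, hp, hq, hp', hq', ← Real.exp_add, ← Real.exp_add]
    congr 3
    ring
  have hs : ((p + q : ℝ) : ℂ) ≠ 0 := by exact_mod_cast (by positivity : p + q ≠ 0)
  have hs' : ((p' + q' : ℝ) : ℂ) ≠ 0 := by exact_mod_cast (by positivity : p' + q' ≠ 0)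
  have e2 : (gp a b u).1 - (gp a b u').1 =
      ((p * q' - p' * q : ℝ) : ℂ) * (a - b) / (((p + q) * (p' + q') : ℝ) : ℂ) := by
    unfold gp
    simp only [← hp, ← hq, ← hp', ← hq']
    rw [Complex.ofReal_mul, div_sub_div _ _ hs hs']
    congr 1
    push_cast
    ring
  have e3 : ‖(gp a b u).1 - (gp a b u').1‖ ^ 2 =
      (p * q' - p' * q) ^ 2 * ‖a - b‖ ^ 2 / ((p + q) * (p' + q')) ^ 2 := by
    rw [e2, norm_div, norm_mul, Complex.norm_real, Complex.norm_real, div_pow, mul_pow,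
      Real.norm_eq_abs, Real.norm_eq_abs, sq_abs, sq_abs]
  have e4 : (gp a b u).2 = ‖a - b‖ / (p + q) := by unfold gp; simp only [← hp, ← hq]
  have e5 : (gp a b u').2 = ‖a - b‖ / (p' + q') := by unfold gp; simp only [← hp', ← hq']
  unfold ch
  rw [e3, e4, e5, e1]
  have h1 : 0 < p + q := by positivity
  have h2 : 0 < p' + q' := by positivity
  field_simp
  have q1 : q = 1 / p := by field_simp; linarith
  have q2 : q' = 1 / p' := by field_simp; linarith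
  rw [q1, q2]
  field_simp
  ring

private lemma gp_symm (a b : ℂ) (u : ℝ) : gp a b u = gp b a (-u) := by
  unfold gp
  rw [neg_neg, norm_sub_rev, add_comm (Real.exp u) (Real.exp (-u)),
    add_comm (((Real.exp u : ℝ) : ℂ) * a)]

private lemma gp_up (a b : ℂ) (u : ℝ) (hab : a ≠ b) : gp a b u ∈ up := by
  have hn : 0 < ‖a - b‖ := norm_pos_iff.2 (sub_ne_zero.2 hab)
  show 0 < ‖a - b‖ / (Real.exp u + Real.exp (-u))
  positivity

private lemma mb_sub (g : SL) (a b : ℂ) (ha : g 1 0 * a + g 1 1 ≠ 0)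
    (hb : g 1 0 * b + g 1 1 ≠ 0) :
    mb g a - mb g b = (a - b) / ((g 1 0 * a + g 1 1) * (g 1 0 * b + g 1 1)) := by
  have hdet : g 0 0 * g 1 1 - g 0 1 * g 1 0 = 1 := by
    have := g.det_coe
    rwa [Matrix.det_fin_two] at this
  unfold mb
  rw [div_sub_div _ _ ha hb]
  congr 1
  linear_combination (a - b) * hdet

private lemma ga_gp (g : SL) (a b : ℂ) (u : ℝ) (hab : a ≠ b) (ha : g 1 0 * a + g 1 1 ≠ 0)
    (hb : g 1 0 * b + g 1 1 ≠ 0) :
    ga g (gp a b u) =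
      gp (mb g a) (mb g b) (u + Real.log (‖g 1 0 * a + g 1 1‖ / ‖g 1 0 * b + g 1 1‖)) := by
  obtain ⟨j, hj⟩ : ∃ j, j = g 1 0 * a + g 1 1 := ⟨_, rfl⟩
  obtain ⟨k, hk⟩ : ∃ k, k = g 1 0 * b + g 1 1 := ⟨_, rfl⟩
  obtain ⟨m, hm⟩ : ∃ m, m = g 0 0 * a + g 0 1 := ⟨_, rfl⟩
  obtain ⟨n, hn⟩ : ∃ n, n = g 0 0 * b + g 0 1 := ⟨_, rfl⟩
  have hab2 := mb_sub g a b ha hb
  rw [← hj] at ha
  rw [← hk] at hb
  rw [← hj, ← hk] at hab2
  rw [← hj, ← hk]
  have hj0 : 0 < ‖j‖ := norm_pos_iff.2 ha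
  have hk0 : 0 < ‖k‖ := norm_pos_iff.2 hb
  obtain ⟨p, hp⟩ : ∃ p, p = Real.exp u := ⟨_, rfl⟩
  obtain ⟨q, hq⟩ : ∃ q, q = Real.exp (-u) := ⟨_, rfl⟩
  have hp0 : 0 < p := by rw [hp]; exact Real.exp_pos _
  have hq0 : 0 < q := by rw [hq]; exact Real.exp_pos _
  have hpq : p * q = 1 := by rw [hp, hq, ← Real.exp_add]; simp
  have hs0 : 0 < p + q := by positivity
  have hs : ((p + q : ℝ) : ℂ) ≠ 0 := by exact_mod_cast hs0.ne'
  have x1 : (gp a b u).1 = ((p : ℂ) * a + (q : ℂ) * b) / ((p + q : ℝ) : ℂ) := by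
    unfold gp
    simp only [← hp, ← hq]
  have x2 : (gp a b u).2 = ‖a - b‖ / (p + q) := by
    unfold gp
    simp only [← hp, ← hq]
  have d1 : g 1 0 * (gp a b u).1 + g 1 1 = ((p : ℂ) * j + (q : ℂ) * k) / ((p + q : ℝ) : ℂ) := by
    rw [x1, hj, hk, eq_div_iff hs, add_mul, mul_assoc, div_mul_cancel₀ _ hs]
    push_cast
    ring
  have d2 : g 0 0 * (gp a b u).1 + g 0 1 = ((p : ℂ) * m + (q : ℂ) * n) / ((p + q : ℝ) : ℂ) := by
    rw [x1, hm, hn, eq_div_iff hs, add_mul, mul_assoc, div_mul_cancel₀ _ hs]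
    push_cast
    ring
  have hjk : g 1 0 * (a - b) = j - k := by rw [hj, hk]; ring
  have hmn : g 0 0 * (a - b) = m - n := by rw [hm, hn]; ring
  have dn : den g (gp a b u) = (p * ‖j‖ ^ 2 + q * ‖k‖ ^ 2) / (p + q) := by
    unfold den
    rw [d1, x2, norm_div, Complex.norm_real, Real.norm_eq_abs, abs_of_pos hs0, div_pow, div_pow,
      ← mul_div_assoc, ← mul_pow, ← norm_mul, hjk, ← add_div, nrm_id p q hpq j k]
    field_simp
  have hW : 0 < p * ‖j‖ ^ 2 + q * ‖k‖ ^ 2 := by positivity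
  have hWc : ((p * ‖j‖ ^ 2 + q * ‖k‖ ^ 2 : ℝ) : ℂ) ≠ 0 := by exact_mod_cast hW.ne'
  have hP : Real.exp (u + Real.log (‖j‖ / ‖k‖)) = p * (‖j‖ / ‖k‖) := by
    rw [Real.exp_add, ← hp, Real.exp_log (by positivity)]
  have hQ : Real.exp (-(u + Real.log (‖j‖ / ‖k‖))) = q * (‖k‖ / ‖j‖) := by
    rw [neg_add, Real.exp_add, ← hq, Real.exp_neg, Real.exp_log (by positivity), inv_div]
  have hPQ : p * (‖j‖ / ‖k‖) + q * (‖k‖ / ‖j‖) =
      (p * ‖j‖ ^ 2 + q * ‖k‖ ^ 2) / (‖j‖ * ‖k‖) := by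
    field_simp
  have hm' : m = mb g a * j := by
    unfold mb
    rw [← hj, ← hm, div_mul_cancel₀ _ ha]
  have hn' : n = mb g b * k := by
    unfold mb
    rw [← hk, ← hn, div_mul_cancel₀ _ hb]
  refine Prod.ext ?_ ?_
  · show ((g 0 0 * (gp a b u).1 + g 0 1) * conj (g 1 0 * (gp a b u).1 + g 1 1) +
        g 0 0 * conj (g 1 0) * ((gp a b u).2 : ℂ) ^ 2) / ((den g (gp a b u) : ℝ) : ℂ) =
      ((Real.exp (u + Real.log (‖j‖ / ‖k‖)) : ℝ) * mb g a +
        (Real.exp (-(u + Real.log (‖j‖ / ‖k‖))) : ℝ) * mb g b) /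
        ((Real.exp (u + Real.log (‖j‖ / ‖k‖)) + Real.exp (-(u + Real.log (‖j‖ / ‖k‖))) : ℝ) : ℂ)
    rw [hP, hQ, hPQ, dn, d1, d2, x2]
    have t1 : g 0 0 * conj (g 1 0) * ((‖a - b‖ / (p + q) : ℝ) : ℂ) ^ 2 =
        ((m - n) * conj (j - k)) / ((p + q : ℝ) : ℂ) ^ 2 := by
      rw [← hmn, ← hjk, map_mul]
      have t2 : ((‖a - b‖ : ℝ) : ℂ) ^ 2 = (a - b) * conj (a - b) := by
        rw [Complex.mul_conj, Complex.normSq_eq_norm_sq]
        push_cast
        ring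
      rw [Complex.ofReal_div, div_pow, t2]
      ring
    have t3 : ((p : ℂ) * m + (q : ℂ) * n) / ((p + q : ℝ) : ℂ) *
        conj (((p : ℂ) * j + (q : ℂ) * k) / ((p + q : ℝ) : ℂ)) +
        ((m - n) * conj (j - k)) / ((p + q : ℝ) : ℂ) ^ 2 =
        (p * (m * conj j) + q * (n * conj k)) / ((p + q : ℝ) : ℂ) := by
      rw [map_div₀, Complex.conj_ofReal, div_mul_div_comm, ← pow_two, ← add_div,
        cpx_id p q hpq m n j k]
      have hs' : ((p : ℂ) + q) ≠ 0 := by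
        have := hs
        push_cast at this
        exact this
      push_cast
      field_simp
    have jj : j * conj j = ((‖j‖ ^ 2 : ℝ) : ℂ) := by
      rw [Complex.mul_conj, Complex.normSq_eq_norm_sq]
    have kk' : k * conj k = ((‖k‖ ^ 2 : ℝ) : ℂ) := by
      rw [Complex.mul_conj, Complex.normSq_eq_norm_sq]
    rw [t1, t3, hm', hn', mul_assoc (mb g a), mul_assoc (mb g b), jj, kk']
    have hjc : ((‖j‖ : ℝ) : ℂ) ≠ 0 := by exact_mod_cast hj0.ne'
    have hkc : ((‖k‖ : ℝ) : ℂ) ≠ 0 := by exact_mod_cast hk0.ne'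
    have hs' : ((p : ℂ) + q) ≠ 0 := by
      have := hs
      push_cast at this
      exact this
    have hW' : (p : ℂ) * (‖j‖ : ℂ) ^ 2 + q * (‖k‖ : ℂ) ^ 2 ≠ 0 := by
      have := hWc
      push_cast at this
      exact this
    push_cast
    field_simp
  · show (gp a b u).2 / den g (gp a b u) = ‖mb g a - mb g b‖ /
      (Real.exp (u + Real.log (‖j‖ / ‖k‖)) + Real.exp (-(u + Real.log (‖j‖ / ‖k‖))))
    rw [hP, hQ, hPQ, dn, x2, hab2, norm_div, norm_mul]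
    field_simp

theorem hGPM : Pool.Agent.Helper88.QT.StGPM := by
  refine ⟨fun a b u u' hab => ⟨gp_up a b u hab, ch_gp a b u u' hab, gp_symm a b u⟩,
    fun g a b u hab ha hb => ⟨?_, ga_gp g a b u hab ha hb⟩, fun a b => ?_⟩
  · intro h
    have h1 := mb_sub g a b ha hb
    rw [h, sub_self] at h1
    have h2 := (div_ne_zero (sub_ne_zero.2 hab) (mul_ne_zero ha hb)).symm
    exact h2 h1
  · unfold gp
    have h1 : ∀ u : ℝ, Real.exp u + Real.exp (-u) ≠ 0 := fun u => by positivity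
    have h2 : ∀ u : ℝ, ((Real.exp u + Real.exp (-u) : ℝ) : ℂ) ≠ 0 := fun u => by
      exact_mod_cast h1 u
    refine Continuous.prodMk ?_ ?_
    · exact Continuous.div (by fun_prop) (by fun_prop) h2
    · exact Continuous.div (by fun_prop) (by fun_prop) h1

end Pool.Agent.Helper16.QT
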